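import Pool.Agent.W2helper26.MC.Stm

/-!
# Project MC, piece CKT: from systems to circuits
-/

set_option autoImplicit false

namespace Pool.Agent.W2helper6.MC

open Finset Pool.Agent.NPC Pool.Agent.H620R2.Gauge Pool.Agent.W2helper86.MD
open Pool.Agent.W2helper26.MC

open Classical in
theorem p_ckt : P_ckt := by
  intro p I Y ι _ _ _ dep val J t h
  let good : Y → Prop := fun v => ∀ j ∈ J v, ∀ l ∈ t v j, dep l.1 < dep v
  let nval : (Y ⊕ (Σ v : Y, {j // j ∈ J v})) → (I → Bool) → Bool := fun u x =>
    match u with
    | Sum.inl v => val v x
    | Sum.inr q => if good q.1 then decide (∀ l ∈ t q.1 q.2.1, val l.1 x = l.2) else false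
  let ndep : (Y ⊕ (Σ v : Y, {j // j ∈ J v})) → ℕ := fun u =>
    match u with
    | Sum.inl v => 2 * dep v
    | Sum.inr q => 2 * dep q.1 - 1
  have hinr : ∀ (v : Y) (j : {j // j ∈ J v}) (x : I → Bool), good v →
      (nval (Sum.inr ⟨v, j⟩) x = true ↔ ∀ l ∈ t v j.1, val l.1 x = l.2) := by
    intro v j x hg
    show (if good v then decide (∀ l ∈ t v j.1, val l.1 x = l.2) else false) = true ↔ _
    rw [if_pos hg, decide_eq_true_iff]
  let C : Ckt p I :=
    { Node := Y ⊕ (Σ v : Y, {j // j ∈ J v})
      finite := inferInstance
      val := nval
      depth := ndep
      rule := by
        rintro (v | ⟨v, j⟩)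
        · rcases h v with hA | ⟨hg, hr⟩
          · exact Or.inl hA
          · by_cases h0 : dep v = 0
            · -- the node is constant
              left
              refine ⟨∅, by simp, fun x y _ => ?_⟩
              have ht : ∀ j ∈ J v, ∀ l, l ∉ t v j := by
                intro j hj l hl
                have := hg j hj l hl
                omega
              have hc : (val v x = true ↔ val v y = true) := by
                rcases hr with hr | ⟨a, hr⟩
                · rw [hr x, hr y]
                  constructor
                  · rintro ⟨j, hj, _⟩
                    exact ⟨j, hj, fun l hl => absurd hl (ht j hj l)⟩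
                  · rintro ⟨j, hj, _⟩
                    exact ⟨j, hj, fun l hl => absurd hl (ht j hj l)⟩
                · rw [hr x, hr y]
                  have e : (J v).filter (fun j => ∀ l ∈ t v j, val l.1 x = l.2) =
                      (J v).filter (fun j => ∀ l ∈ t v j, val l.1 y = l.2) := by
                    apply Finset.filter_congr
                    intro j hj
                    constructor
                    · intro _ l hl
                      exact absurd hl (ht j hj l)
                    · intro _ l hl
                      exact absurd hl (ht j hj l)
                  rw [e]
              show val v x = val v y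
              cases hx : val v x <;> cases hy : val v y <;> simp_all
            · right
              rcases hr with hr | ⟨a, hr⟩
              · left
                refine ⟨true, (J v).attach.image (fun j => (Sum.inr ⟨v, j⟩, true)), ?_, ?_⟩
                · intro u hu
                  obtain ⟨j, _, rfl⟩ := Finset.mem_image.1 hu
                  show 2 * dep v - 1 < 2 * dep v
                  omega
                · intro x
                  show val v x = true ↔ _
                  rw [hr x]
                  constructor
                  · rintro ⟨j, hj, hl⟩
                    exact ⟨(Sum.inr ⟨v, ⟨j, hj⟩⟩, true),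
                      Finset.mem_image.2 ⟨⟨j, hj⟩, Finset.mem_attach _ _, rfl⟩,
                      (hinr v ⟨j, hj⟩ x hg).2 hl⟩
                  · rintro ⟨u, hu, hl⟩
                    obtain ⟨j, _, rfl⟩ := Finset.mem_image.1 hu
                    exact ⟨j.1, j.2, (hinr v j x hg).1 hl⟩
              · right
                refine ⟨a, (J v).attach.image (fun j => Sum.inr ⟨v, j⟩), fun _ => 1, ?_, ?_⟩
                · intro u hu
                  obtain ⟨j, _, rfl⟩ := Finset.mem_image.1 hu
                  show 2 * dep v - 1 < 2 * dep v
                  omega
                · intro x
                  show val v x = true ↔ _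
                  rw [hr x, Finset.sum_image (fun i _ j _ hij => by simpa using hij)]
                  have e : ∑ j ∈ (J v).attach, (1 : ZMod p) *
                      (if nval (Sum.inr ⟨v, j⟩) x = true then 1 else 0) =
                      (((J v).filter (fun j => ∀ l ∈ t v j, val l.1 x = l.2)).card : ZMod p) := by
                    rw [← Finset.sum_boole, ← Finset.sum_attach (J v)
                      (fun j => if (∀ l ∈ t v j, val l.1 x = l.2) then (1 : ZMod p) else 0)]
                    refine Finset.sum_congr rfl fun j _ => ?_
                    rw [one_mul]
                    simp only [hinr v j x hg]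
                  rw [e]
        · by_cases hg : good v
          · right
            left
            refine ⟨false, (t v j.1).image (fun l => (Sum.inl l.1, !l.2)), ?_, ?_⟩
            · intro u hu
              obtain ⟨l, hl, rfl⟩ := Finset.mem_image.1 hu
              have := hg j.1 j.2 l hl
              show 2 * dep l.1 < 2 * dep v - 1
              omega
            · intro x
              rw [← Bool.not_eq_true, hinr v j x hg]
              constructor
              · intro hn
                push Not at hn
                obtain ⟨l, hl, hne⟩ := hn
                refine ⟨(Sum.inl l.1, !l.2), Finset.mem_image.2 ⟨l, hl, rfl⟩, ?_⟩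
                show val l.1 x = !l.2
                exact Bool.eq_not.2 hne
              · rintro ⟨u, hu, hl⟩ hall
                obtain ⟨l, hlt, rfl⟩ := Finset.mem_image.1 hu
                have h1 := hall l hlt
                have h2 : val l.1 x = !l.2 := hl
                exact Bool.eq_not.1 h2 h1
          · left
            refine ⟨∅, by simp, fun x y _ => ?_⟩
            show (if good v then decide (∀ l ∈ t v j.1, val l.1 x = l.2) else false) =
              (if good v then decide (∀ l ∈ t v j.1, val l.1 y = l.2) else false)
            rw [if_neg hg, if_neg hg] }
  refine ⟨C, Sum.inl, fun v x => rfl, fun v => le_refl _, ?_⟩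
  show Nat.card (Y ⊕ (Σ v : Y, {j // j ∈ J v})) ≤ _
  rw [Nat.card_eq_fintype_card, Fintype.card_sum, Fintype.card_sigma]
  simp only [Fintype.card_coe]
  exact le_refl _

end Pool.Agent.W2helper6.MC
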