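import Pool.Agent.W2helper26.MC.Stm
import Pool.Agent.W2helper57.PPH.Lang

/-!
# Project MC, piece PP: the majority language is in `PP`
-/

set_option autoImplicit false

namespace Pool.Agent.W2helper6.MC

open Pool.Agent.NPC Pool.Agent.H622R2 Pool.Agent.W2helper57.PPH Pool.Agent.H620R2.Gauge
open Pool.Agent.W2helper26.MC

/-- the verifier -/
def ppV (A : Oracle) (z : List Bool) : List Bool :=
  if (unpair z).2.length = 0 then [false]
  else if (unpair z).1.take (unpair z).2.length = (unpair z).2.map (fun _ => true) then
    [((unpair z).1.drop (unpair z).2.length).head?.getD false]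
  else [A ((unpair z).2 ++ (unpair z).1.take (unpair z).2.length)]

theorem ppV_pair (A : Oracle) (w x : List Bool) : ppV A (pairBits w x) =
    if x.length = 0 then [false] else if w.take x.length = List.replicate x.length true then
      [(w.drop x.length).head?.getD false] else [A (x ++ w.take x.length)] := by
  unfold ppV
  simp only [unpair_pairBits, List.map_const']

section

attribute [local irreducible] unpair

theorem isFP_ppV (A : Oracle) : IsFP A (ppV A) := by
  have h0 := poly_unpair
  have hw : Poly (fun z : List Bool => (unpair z).1) := by fun_prop
  have hx : Poly (fun z : List Bool => (unpair z).2) := by fun_prop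
  have hn : UPoly (fun z : List Bool => (unpair z).2.length) := UPoly.length hx
  have hn' := hn.toPoly
  have hT : Poly (fun z : List Bool => (unpair z).1.take (unpair z).2.length) := poly_take hw hn'
  have hD : Poly (fun z : List Bool => ((unpair z).1.drop (unpair z).2.length).head?.getD false) :=
    PTask.poly_headD (poly_drop hw hn')
  have hM : Poly (fun z : List Bool => (unpair z).2.map (fun _ => true)) :=
    NPC.Poly.map (F := fun _ _ => true) hx (NPC.Poly.const true)
  have hQ : Poly (fun z : List Bool => [(unpair z).2 ++ (unpair z).1.take (unpair z).2.length]) :=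
    Poly.cons (Poly.append hx hT) (NPC.Poly.const [])
  have hb : Poly (fun q : List Bool × List Bool => q.2.head?.getD false) :=
    PTask.poly_headD (Poly.snd Poly.id)
  have hH : Poly (fun q : List Bool × List Bool =>
      if (unpair q.1).2.length = 0 then [false]
      else if (unpair q.1).1.take (unpair q.1).2.length = (unpair q.1).2.map (fun _ => true) then
        [((unpair q.1).1.drop (unpair q.1).2.length).head?.getD false]
      else [q.2.head?.getD false]) := by
    have f1 : Poly (fun q : List Bool × List Bool => q.1) := Poly.fst Poly.id
    exact Poly.ite (Poly.decide_eq (hn'.comp f1) (NPC.Poly.const 0)) (NPC.Poly.const [false])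
      (Poly.ite (Poly.decide_eq (hT.comp f1) (hM.comp f1))
        (Poly.cons (hD.comp f1) (NPC.Poly.const [])) (Poly.cons hb (NPC.Poly.const [])))
  exact IsFP.tt (A := A) hQ hH

end

theorem cntS_ones (m : ℕ) : cntS m (fun u => u = List.replicate m true) = 1 := by
  unfold cntS
  have h : ∀ w : Fin m → Bool, List.ofFn w = List.replicate m true ↔ w = fun _ => true := by
    intro w
    rw [← List.ofFn_const]
    exact List.ofFn_injective.eq_iff
  simp only [h]
  exact Nat.card_unique

theorem cntA_eq (A : Oracle) (x : List Bool) : cntA A x = cntS x.length (fun u =>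
    u ≠ List.replicate x.length true ∧ A (x ++ u) = true) := by
  unfold cntA cntS
  rw [← Nat.card_coe_set_eq]
  symm
  refine Nat.card_congr (Equiv.ofBijective (fun w => ⟨List.ofFn w.1, by simp, w.2.1, w.2.2⟩) ⟨?_, ?_⟩)
  · intro w w' h
    have h1 := congrArg Subtype.val h
    exact Subtype.ext (List.ofFn_injective h1)
  · rintro ⟨w, hw, h1, h2⟩
    refine ⟨⟨fun i => w[i.1]'(by rw [hw]; exact i.2), ?_⟩, ?_⟩
    · have e : List.ofFn (fun i : Fin x.length => w[i.1]'(by rw [hw]; exact i.2)) = w := by
        apply List.ext_getElem
        · simp [hw]
        · intro i h3 h4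
          simp
      rw [e]
      exact ⟨h1, h2⟩
    · apply Subtype.ext
      apply List.ext_getElem
      · simp [hw]
      · intro i h3 h4
        simp

theorem p_pp : P_pp := by
  intro A
  refine IsPP.of_count (p := Polynomial.X + Polynomial.C 1) (isFP_ppV A) (fun x => ?_)
  have e1 : (Polynomial.X + Polynomial.C 1 : Polynomial ℕ).eval x.length = x.length + 1 := by simp
  rw [e1]
  by_cases hx : x.length = 0
  · have h1 : cntS (x.length + 1) (fun w => ppV A (pairBits w x) = [true]) = 0 := by
      have h2 := cntS_add_not (x.length + 1) (fun w => ppV A (pairBits w x) = [true])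
      have h3 : cntS (x.length + 1) (fun w => ¬ ppV A (pairBits w x) = [true]) =
          cntS (x.length + 1) (fun _ => True) := cntS_congr fun w _ => by
        rw [ppV_pair, if_pos hx]
        simp
      rw [h3, cntS_true] at h2
      omega
    rw [h1, majL, Set.mem_setOf_eq]
    simp [hx]
  · have h1 : cntS (x.length + 1) (fun w => ppV A (pairBits w x) = [true]) =
        1 + cntA A x * 2 := by
      have h2 : cntS (x.length + 1) (fun w => ppV A (pairBits w x) = [true]) =
          cntS (x.length + 1) (fun w =>
            (w.take x.length = List.replicate x.length true ∧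
              (w.drop x.length).head?.getD false = true) ∨
            ((w.take x.length ≠ List.replicate x.length true ∧ A (x ++ w.take x.length) = true) ∧
              True)) := cntS_congr fun w _ => by
        rw [ppV_pair, if_neg hx]
        by_cases h : w.take x.length = List.replicate x.length true
        · rw [if_pos h]
          simp [h]
        · rw [if_neg h]
          simp [h]
      rw [h2, cntS_or (fun w _ h3 h4 => h4.1.1 h3.1),
        cntS_prod x.length 1 (fun u => u = List.replicate x.length true)
          (fun v => v.head?.getD false = true),
        cntS_prod x.length 1 (fun u => u ≠ List.replicate x.length true ∧ A (x ++ u) = true)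
          (fun _ => True), cntS_ones, cntS_true, ← cntA_eq]
      have h3 : cntS 1 (fun v => v.head?.getD false = true) = 1 := by
        refine (cntS_congr fun v hv => ?_).trans (cntS_ones 1)
        obtain ⟨a, rfl⟩ := List.length_eq_one_iff.1 hv
        simp
      rw [h3, one_mul, pow_one]
    rw [h1, majL, Set.mem_setOf_eq]
    obtain ⟨k, hk⟩ : ∃ k, x.length = k + 1 := ⟨x.length - 1, by omega⟩
    rw [hk, Nat.add_sub_cancel, pow_succ, pow_succ]
    generalize 2 ^ k = N
    omega

end Pool.Agent.W2helper6.MC
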